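import Pool.Agent.H.MP_a7e1fe_lc.B

set_option autoImplicit false

namespace Pool.Agent.Results.MP_a7e1fe_lc.Yes

open Pool.Agent.Lib.helper21.Wh Pool.Agent.H.MP_a7e1fe_lc

theorem result : ∀ f g : Pb, Le f lim → Le g PKN → Le (comp f g) PK := fun _ _ => main

end Pool.Agent.Results.MP_a7e1fe_lc.Yes
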